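import Pool.Agent.Q30.CVTrees
import Pool.Agent.Q30.CVAut

/-!
# MP_9fd1ce: no finite set of primitive elements of `F₂` is `CV₂`-rigid

For every finite set `S` of primitive elements there are two points of `CV₂` (one with a theta
graph, one with a dumbbell as quotient graph) with the same translation lengths on `S` but with
different translation length functions.
-/

namespace Pool.Agent.Results.MP_9fd1ce_al.NoPrimitiveRigidSet

open Q30.CV Q30.BlowUp

/-- edge lengths of the theta graph -/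
noncomputable def lT : Fin 2 → ℝ := ![1 / 5, 3 / 5]
/-- edge lengths of the dumbbell -/
noncomputable def lD : Fin 2 → ℝ := ![2 / 5, 2 / 5]

theorem lT_pos : ∀ i, 0 < lT i := by intro i; fin_cases i <;> simp [lT]
theorem lD_pos : ∀ i, 0 < lD i := by intro i; fin_cases i <;> simp [lD]

theorem c_pos : (0 : ℝ) < 1 / 5 := by norm_num

/-- the theta tree -/
noncomputable def TT (θ : MulAut F) : MTree := bt attT lT (1 / 5) c_pos lT_pos θ
/-- the dumbbell tree -/
noncomputable def TD (θ : MulAut F) : MTree := bt attD lD (1 / 5) c_pos lD_pos θ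

theorem crossT (σ : Bool) : ∃ (h k : F) (p : (Gr attT).Walk (1, σ) (h, σ)),
    p.IsPath ∧ (k, !σ) ∈ p.support := by
  have a1 : (Gr attT).Adj (1, σ) (lt (0, σ), !σ) := Or.inr ⟨(0, σ), by simp, rfl, rfl⟩
  have a2 : (Gr attT).Adj (lt (0, σ), !σ) (lt (0, σ), σ) := Or.inl ⟨rfl, by simp⟩
  refine ⟨lt (0, σ), lt (0, σ), SimpleGraph.Walk.cons a1 (SimpleGraph.Walk.cons a2
    SimpleGraph.Walk.nil), ?_, by simp⟩
  rw [SimpleGraph.Walk.isPath_def]
  have := lt_ne_one (0, σ)
  simp [this.symm]

theorem crossD (σ : Bool) : ∃ (h k : F) (p : (Gr attD).Walk (1, σ) (h, σ)),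
    p.IsPath ∧ (k, !σ) ∈ p.support := by
  obtain ⟨s, h1, h2⟩ : ∃ s : Lt, attD s = !σ ∧ attD (bar s) = !σ := by
    cases σ
    · exact ⟨(0, true), rfl, rfl⟩
    · exact ⟨(1, true), rfl, rfl⟩
  have a0 : (Gr attD).Adj (1, σ) (1, !σ) := Or.inl ⟨rfl, by simp⟩
  have a1 : (Gr attD).Adj (1, !σ) (lt s, !σ) := Or.inr ⟨s, by simp, h1.symm, h2.symm⟩
  have a2 : (Gr attD).Adj (lt s, !σ) (lt s, σ) := Or.inl ⟨rfl, by simp⟩
  refine ⟨lt s, 1, SimpleGraph.Walk.cons a0 (SimpleGraph.Walk.cons a1 (SimpleGraph.Walk.cons a2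
    SimpleGraph.Walk.nil)), ?_, by simp⟩
  rw [SimpleGraph.Walk.isPath_def]
  have := lt_ne_one s
  simp [this.symm]

theorem TT_inCV (θ : MulAut F) : (TT θ).InCV := by
  refine ⟨bt_free _ _ _ _ _ _, bt_minimal _ _ _ _ _ _ crossT, ?_⟩
  have h := bt_covolume attT lT (1 / 5) c_pos lT_pos θ
  have e : (1 / 5 : ℝ) + lT 0 + lT 1 = 1 := by simp [lT]; norm_num
  rwa [e] at h

theorem TD_inCV (θ : MulAut F) : (TD θ).InCV := by
  refine ⟨bt_free _ _ _ _ _ _, bt_minimal _ _ _ _ _ _ crossD, ?_⟩
  have h := bt_covolume attD lD (1 / 5) c_pos lD_pos θ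
  have e : (1 / 5 : ℝ) + lD 0 + lD 1 = 1 := by simp [lD]; norm_num
  rwa [e] at h

/-- the blocks of a positive word -/
def blocks (l : List (Fin 2)) : List Bool := l.map (fun i => decide (i = 1))

theorem tau_pos (l : List (Fin 2)) : tau (pos l) = FreeGroup.mk (wd (blocks l)) := by
  induction l with
  | nil => exact map_one tau
  | cons i l ih =>
    have e : pos (i :: l) = FreeGroup.of i * pos l := rfl
    rw [e, map_mul, ih]
    have h0 : tau (FreeGroup.of 0) = FreeGroup.of 0 := mkAut_of0 _ _ _ _ _ _ _ _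
    have h1 : tau (FreeGroup.of 1) = FreeGroup.of 0 * FreeGroup.of 1 := mkAut_of1 _ _ _ _ _ _ _ _
    fin_cases i
    · change tau (FreeGroup.of 0) * _ = _
      rw [h0]
      rfl
    · change tau (FreeGroup.of 1) * _ = _
      rw [h1]
      rfl

/-- the common length of a block -/
noncomputable def kap (t : Bool) : ℝ := if t then 6 / 5 else 2 / 5

theorem tlT (θ : MulAut F) (m : List Bool) :
    ⨅ x : F × Bool, (TT θ).d x (FreeGroup.mk (wd m) * x.1, x.2) = (m.map kap).sum := by
  apply tl_eq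
  intro n
  rw [bt_d, mk_pow, wd_pow]
  dsimp only
  rw [inv_one, one_mul, toWord_pos _ (wd_pos _), (D_theta _ _ _ (wd_pos _)).1, sum_wd,
    ← sum_replicate_flatten]
  congr 1
  apply List.map_congr_left
  intro t _
  cases t <;> simp [kap, lT] <;> norm_num

theorem tlD (θ : MulAut F) (m : List Bool) :
    ⨅ x : F × Bool, (TD θ).d x (FreeGroup.mk (wd m) * x.1, x.2) = (m.map kap).sum := by
  apply tl_eq
  intro n
  rw [bt_d, mk_pow, wd_pow]
  dsimp only
  rw [inv_one, one_mul, toWord_pos _ (wd_pos _), (D_dumb _ _ _).1, ← sum_replicate_flatten]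
  congr 1
  apply List.map_congr_left
  intro t _
  cases t <;> simp [kap, lD] <;> norm_num

theorem same_length (θ : MulAut F) (w : F) (g : F) (m : List Bool)
    (h : θ w = g * FreeGroup.mk (wd m) * g⁻¹ ∨ θ w = g * (FreeGroup.mk (wd m))⁻¹ * g⁻¹) :
    (TT θ).tl w = (TD θ).tl w := by
  rcases h with h | h
  · have h1 := tl_conj attT lT (1 / 5) c_pos lT_pos θ w g _ h
    have h2 := tl_conj attD lD (1 / 5) c_pos lD_pos θ w g _ h
    exact (h1.trans (tlT θ m)).trans (h2.trans (tlD θ m)).symm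
  · have h1 := tl_conj attT lT (1 / 5) c_pos lT_pos θ w g _ h
    have h2 := tl_conj attD lD (1 / 5) c_pos lD_pos θ w g _ h
    rw [tl_inv] at h1 h2
    exact (h1.trans (tlT θ m)).trans (h2.trans (tlD θ m)).symm

theorem different (θ : MulAut F) : (TD θ).tl (θ.symm (FreeGroup.of 1)) <
    (TT θ).tl (θ.symm (FreeGroup.of 1)) := by
  have h : θ (θ.symm (FreeGroup.of 1)) = 1 * FreeGroup.of 1 * 1⁻¹ := by
    rw [MulEquiv.apply_symm_apply]; group
  have h1 := tl_conj attT lT (1 / 5) c_pos lT_pos θ _ _ _ h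
  have h2 := tl_conj attD lD (1 / 5) c_pos lD_pos θ _ _ _ h
  have h3 : (TT θ).tl (θ.symm (FreeGroup.of 1)) = 4 / 5 := by
    refine h1.trans ?_
    apply tl_eq
    intro n
    have e : (FreeGroup.of 1 : F) ^ n = FreeGroup.mk (List.replicate n ((1 : Fin 2), true)) := by
      rw [FreeGroup.of, mk_pow]
      congr 1
      induction n with
      | zero => rfl
      | succ n ih => rw [List.replicate_succ, List.flatten_cons, ih, List.replicate_succ]; rfl
    have hp : ∀ s ∈ List.replicate n ((1 : Fin 2), true), s.2 = true := by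
      intro s hs
      rw [List.eq_of_mem_replicate hs]
    rw [bt_d, e]
    dsimp only
    rw [inv_one, one_mul, toWord_pos _ hp, (D_theta _ _ _ hp).1]
    simp [lT]
    ring
  have h4 : (TD θ).tl (θ.symm (FreeGroup.of 1)) ≤ 2 / 5 := by
    refine h2.le.trans ?_
    refine (ciInf_le (tl_bdd attD lD (1 / 5) c_pos lD_pos θ _) (1, false)).trans ?_
    rw [bt_d]
    dsimp only
    have e : ((1 : F)⁻¹ * (FreeGroup.of 1 * 1)).toWord = [((1 : Fin 2), true)] := by
      rw [inv_one, one_mul, mul_one]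
      exact FreeGroup.toWord_of 1
    rw [e]
    simp [D, attD, bar, lD]
  rw [h3]
  linarith

/-- The negative answer to Q1: for every finite set `S` of primitive elements there are two points
of `CV₂` with the same translation lengths on `S` but with different translation length functions
(so that they are different points of `CV₂`). -/
theorem result (S : Set (FreeGroup (Fin 2))) (hS : S.Finite) (hp : ∀ w ∈ S, Primitive w) :
    ∃ T T' : MTree, T.InCV ∧ T'.InCV ∧ (∀ w ∈ S, T.tl w = T'.tl w) ∧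
      ∃ g : FreeGroup (Fin 2), T.tl g ≠ T'.tl g := by
  obtain ⟨ψ, hψ⟩ := common_positive S hS hp
  refine ⟨TT (tau * ψ), TD (tau * ψ), TT_inCV _, TD_inCV _, ?_, _, (different (tau * ψ)).ne'⟩
  intro w hw
  obtain ⟨g, l, h⟩ := hψ w hw
  apply same_length (tau * ψ) w (tau g) (blocks l)
  rw [← tau_pos, MulAut.mul_apply]
  rcases h with h | h
  · left; rw [h]; simp
  · right; rw [h]; simp

end Pool.Agent.Results.MP_9fd1ce_al.NoPrimitiveRigidSet
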